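import Mathlib
import Pool.Agent.V11101.FSf

/-!
# MP_620062_an : zero products of Toeplitz operators on Fock-Sobolev spaces

`fsMeasure m`, `fsKernel m`, `toeplitz m`, `A1` (from the helper modules) are the measure `μ_m`,
the reproducing kernel `K_m`, the Toeplitz operators `T_φ F (z) = ∫ φ F K_m(z,·) dμ_m` and the
class `𝒜₁`.  For `u = f + \bar k`, `v = h + \bar g` with `f, g, h, k ∈ 𝒜₁`:

* for `F` a polynomial or a kernel function `K_m(·,a)`, all the integrals defining `T_v F` and
  `T_u (T_v F)` converge absolutely;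
* if `T_u T_v p = 0` for all polynomials `p`, then `u = 0` or `v = 0`;
* if `T_u T_v K_m(·,a) = 0` for all `a`, then `u = 0` or `v = 0`.
-/

open MeasureTheory Complex
open scoped ComplexConjugate Real Polynomial

namespace Pool.Agent.Results.MP_620062_an.NoZeroProducts

open Pool.Agent.V11101.FockSob

theorem result (m : ℕ) (f g h k : ℂ → ℂ) (hf : f ∈ A1) (hg : g ∈ A1) (hh : h ∈ A1)
    (hk : k ∈ A1) :
    let u : ℂ → ℂ := fun z => f z + (starRingEnd ℂ) (k z)
    let v : ℂ → ℂ := fun z => h z + (starRingEnd ℂ) (g z)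
    (∀ (p : ℂ[X]) (z : ℂ),
      Integrable (fun w => v w * p.eval w * fsKernel m z w) (fsMeasure m) ∧
      Integrable (fun w => u w * toeplitz m v (fun w => p.eval w) w * fsKernel m z w)
        (fsMeasure m)) ∧
    (∀ a z : ℂ,
      Integrable (fun w => v w * fsKernel m w a * fsKernel m z w) (fsMeasure m) ∧
      Integrable (fun w => u w * toeplitz m v (fun w => fsKernel m w a) w * fsKernel m z w)
        (fsMeasure m)) ∧
    ((∀ (p : ℂ[X]) (z : ℂ), toeplitz m u (toeplitz m v (fun w => p.eval w)) z = 0) →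
      (∀ z, u z = 0) ∨ (∀ z, v z = 0)) ∧
    ((∀ a z : ℂ, toeplitz m u (toeplitz m v (fun w => fsKernel m w a)) z = 0) →
      (∀ z, u z = 0) ∨ (∀ z, v z = 0)) := by
  intro u v
  obtain ⟨F, hF⟩ := A1_finsupp hf
  obtain ⟨H, hH⟩ := A1_finsupp hh
  obtain ⟨κ, hκ, hκk⟩ := A1_repC hk
  obtain ⟨η, hη, hηg⟩ := A1_repC hg
  have hu : ∀ w, u w = EV w F + κ ((starRingEnd ℂ) w) := fun w => by
    change f w + (starRingEnd ℂ) (k w) = _
    rw [hF, hκk]
  have hv : ∀ w, v w = EV w H + η ((starRingEnd ℂ) w) := fun w => by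
    change h w + (starRingEnd ℂ) (g w) = _
    rw [hH, hηg]
  refine ⟨fun p z => ?_, fun a z => ?_, fun hyp => ?_, fun hyp => ?_⟩
  · exact well_defined m u v (fun w => p.eval w) F H hκ hη hu hv _ (poly_rep m p) z
  · obtain ⟨G, hG⟩ := kernel_rep' m a
    exact well_defined m u v (fun w => fsKernel m w a) F H hκ hη hu hv G hG z
  · exact main_poly m u v F H hκ hη hu hv hyp
  · exact main_kernel m u v F H hκ hη hu hv hyp

end Pool.Agent.Results.MP_620062_an.NoZeroProducts
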